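import Mathlib
import Pool.Agent.Lib.MP_635d71_ag.FinalK

/-!
MP_635d71_ag. Polynomially balanced Segre varieties are never defective.
-/

namespace Pool.Agent.Results.MP_635d71_ag.Balanced

open Pool.Agent.Lib.MP_635d71_ag

/-- Let `i₀` be one of the factors, `S` a set of other factors, `D = 1 + ∑_{i ≠ i₀} n i` and
`D_S = 1 + ∑_{i ∈ S} n i`. If `(n i₀ + 1) D² D_S⁶ ≤ ∏_{i ∈ S} (n i + 1)`, then every secant variety
of the Segre variety of `P^{n 0} × ... × P^{n (k-1)}` has the expected dimension: the affine cone over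
the `r`-th one has dimension `min (r (1 + ∑ n i), ∏ (n i + 1))`, for every `r`. The factors outside
of `S` are arbitrary. For `S` = all the other factors the condition reads
`(n i₀ + 1) D⁸ ≤ ∏_{i ≠ i₀} (n i + 1)`. -/
theorem result (k : ℕ) (n : Fin k → ℕ) (hn : ∀ i, 1 ≤ n i) (i₀ : Fin k) (S : Finset (Fin k))
    (hS : i₀ ∉ S)
    (h : (n i₀ + 1) * (∑ i ∈ Finset.univ.erase i₀, n i + 1) ^ 2 * (∑ i ∈ S, n i + 1) ^ 6 ≤
      ∏ i ∈ S, (n i + 1)) (r : ℕ) :
    coneDim n r = ((min (r * (∑ i, n i + 1)) (∏ i, (n i + 1)) : ℕ) : Cardinal) :=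
  balanced n hn i₀ S hS h r

end Pool.Agent.Results.MP_635d71_ag.Balanced
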