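import Mathlib
import Pool.Agent.Lib.MP_635d71_ag.FourFinal2

/-!
MP_635d71_ag. Segre varieties with four large factors are never defective.
-/

namespace Pool.Agent.Results.MP_635d71_ag.FourFactors

open Pool.Agent.Lib.MP_635d71_ag

/-- Let `Θ = 1 + ∑ n l`, let `i` be an index, let `Θ' = 1 + ∑_{l ≠ i} n l`, and let `S` be a set of
three other indices `j` with `n j ≤ n i`. If `100 Θ' ≤ (n j + 1)²` for `j ∈ S` and
`8 Θ' Θ² ≤ (∏_{j ∈ S} (n j + 1))²`, then every secant variety of the Segre variety of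
`P^{n 0} × ... × P^{n (k-1)}` has the expected dimension: the affine cone over the `r`-th one has
dimension `min (r Θ, ∏ (n l + 1))`, for every `r`. The other factors are arbitrary. -/
theorem result (k : ℕ) (n : Fin k → ℕ) (i : Fin k) (S : Finset (Fin k)) (hS : S.card = 3)
    (hiS : i ∉ S) (hmax : ∀ j ∈ S, n j ≤ n i)
    (h1 : ∀ j ∈ S, 100 * (∑ l ∈ Finset.univ.erase i, n l + 1) ≤ (n j + 1) ^ 2)
    (h2 : 8 * (∑ l ∈ Finset.univ.erase i, n l + 1) * (∑ l, n l + 1) ^ 2 ≤
      (∏ j ∈ S, (n j + 1)) ^ 2) (r : ℕ) :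
    coneDim n r = ((min (r * (∑ i, n i + 1)) (∏ i, (n i + 1)) : ℕ) : Cardinal) :=
  four_factors2 n i S hS hiS hmax h1 h2 r

end Pool.Agent.Results.MP_635d71_ag.FourFactors
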