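import Mathlib
import Pool.Agent.Lib.MP_635d71_ag.Fr.Asm

/-!
MP_635d71_ag. Segre varieties with one factor of arbitrary dimension: all secant varieties.
-/

namespace Pool.Agent.Results.MP_635d71_ag.FreeLargestFactor

open Pool.Agent.Lib.MP_635d71_ag

/-- Let `i` be an index, `q = n i + 1`, `P = ∏_{l ≠ i} (n l + 1)` and `L = ∑_{l ≠ i} n l`. Suppose
that there is a set `S` of three other indices `j` with `n j ≤ n i` and `1600 (L + 1) ≤ (n j + 1)²`, or that
`k ≥ 1800`, all `n j ≥ 1` and `(L + 1) ^ 12 ≤ 2 ^ k`. Then for every `r` the affine cone over the `r`-th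
secant variety of the Segre variety of `P^{n 0} × ... × P^{n (k-1)}` has the dimension
`r (q + min (P - r) L)` if `r < min P q`, and `min (r (q + L)) (P q)` otherwise. There is no condition
on the size of `n i`. -/
theorem result (k : ℕ) (n : Fin k → ℕ) (i : Fin k)
    (h : (∃ S : Finset (Fin k), S.card = 3 ∧ i ∉ S ∧ ∀ j ∈ S, n j ≤ n i ∧
        1600 * (∑ l ∈ Finset.univ.erase i, n l + 1) ≤ (n j + 1) ^ 2) ∨
      (1800 ≤ k ∧ (∀ j, 1 ≤ n j) ∧ (∑ l ∈ Finset.univ.erase i, n l + 1) ^ 12 ≤ 2 ^ k))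
    (r : ℕ) :
    coneDim n r = ((if r < min (∏ l ∈ Finset.univ.erase i, (n l + 1)) (n i + 1) then
        r * (n i + 1 + min (∏ l ∈ Finset.univ.erase i, (n l + 1) - r)
          (∑ l ∈ Finset.univ.erase i, n l))
      else min (r * (n i + 1 + ∑ l ∈ Finset.univ.erase i, n l))
        ((∏ l ∈ Finset.univ.erase i, (n l + 1)) * (n i + 1)) : ℕ) : Cardinal) := by
  rcases h with ⟨S, hS, hiS, hj⟩ | ⟨hk, h1, h2⟩
  · exact Fr.fFam k n i S hS hiS (fun j hjS => (hj j hjS).1) (fun j hjS => (hj j hjS).2) r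
  · exact Fr.fFamB k n i hk h1 h2 r

end Pool.Agent.Results.MP_635d71_ag.FreeLargestFactor
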