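import Mathlib
import Pool.Agent.Lib.MP_635d71_ag.ThreeFinal3

/-!
MP_635d71_ag. Three factors of comparable sizes.
-/

namespace Pool.Agent.Results.MP_635d71_ag.ThreeFactors

open Pool.Agent.Lib.MP_635d71_ag

/-- Three factors `P^{n i} × P^{n j} × P^{n l}`, with `Θ = 1 + n 0 + n 1 + n 2`, `A = n j + 1`,
`B = n l + 1`. If `AB`, `A(Θ - 2B)`, `B(Θ - 2A)` are all at least `√(32 (A + B)) Θ` (so in the limit
`A, B < Θ/2`; the third factor is arbitrary), then the `r`-th secant variety has the expected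
dimension for every `r`. -/
theorem result (n : Fin 3 → ℕ) (i j l : Fin 3) (hij : i ≠ j)
    (hil : i ≠ l) (hjl : j ≠ l) (Θ : ℕ) (hΘ : Θ = n 0 + n 1 + n 2 + 1)
    (h1 : 32 * (n j + n l + 2) * Θ ^ 2 ≤ ((n j + 1) * (n l + 1)) ^ 2)
    (h2 : 32 * (n j + n l + 2) * Θ ^ 2 ≤ ((n j + 1) * (Θ - 2 * (n l + 1))) ^ 2)
    (h3 : 32 * (n j + n l + 2) * Θ ^ 2 ≤ ((n l + 1) * (Θ - 2 * (n j + 1))) ^ 2) (r : ℕ) :
    coneDim n r = ((min (r * (∑ i, n i + 1)) (∏ i, (n i + 1)) : ℕ) : Cardinal) :=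
  three_factors3 n i j l hij hil hjl Θ hΘ h1 h2 h3 r

end Pool.Agent.Results.MP_635d71_ag.ThreeFactors
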